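import Mathlib

set_option autoImplicit false

/-!
Tails for the number of coordinates with a label in a prescribed set, counting form.
`f : I → Fin q` uniformly random, `S` a set of coordinates, `Λ i` a set of `l` labels for each
coordinate; `X f = #{i ∈ S : f i ∈ Λ i}` has mean `θ |S|`, `θ = l / q`.
-/

namespace Pool.Agent.H76.SCD

open Finset

variable {I : Type} [Fintype I] [DecidableEq I] {q : ℕ}

/-- the number of coordinates in `S` with label in `Λ`. -/
def hits (S : Finset I) (Λ : I → Finset (Fin q)) (f : I → Fin q) : ℕ :=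
  (S.filter fun i => f i ∈ Λ i).card

theorem mgf1 (hq : 0 < q) (S : Finset I) (Λ : I → Finset (Fin q)) (l : ℕ)
    (hΛ : ∀ i ∈ S, (Λ i).card = l) (w : ℝ) :
    ∑ f : I → Fin q, w ^ (hits S Λ f) =
      (q : ℝ) ^ (Fintype.card I) * (1 + (l : ℝ) / q * (w - 1)) ^ S.card := by
  classical
  have hq' : (q : ℝ) ≠ 0 := by exact_mod_cast hq.ne'
  have h1 : ∀ f : I → Fin q, w ^ (hits S Λ f)
      = ∏ i : I, (if i ∈ S then (if f i ∈ Λ i then w else 1) else 1) := by
    intro f
    rw [prod_ite_mem, univ_inter]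
    rw [prod_ite, prod_const_one, mul_one, prod_const]
    rfl
  have h2 : ∑ f : I → Fin q, ∏ i : I, (if i ∈ S then (if f i ∈ Λ i then w else 1) else 1)
      = ∏ i : I, ∑ a : Fin q, (if i ∈ S then (if a ∈ Λ i then w else 1) else 1 : ℝ) := by
    have := Finset.prod_univ_sum (fun _ : I => (univ : Finset (Fin q)))
      (fun (i : I) (a : Fin q) => (if i ∈ S then (if a ∈ Λ i then w else 1) else 1 : ℝ))
    rw [this, Fintype.piFinset_univ]
  rw [sum_congr rfl (fun f _ => h1 f), h2]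
  have h3 : ∀ i : I, ∑ a : Fin q, (if i ∈ S then (if a ∈ Λ i then w else 1) else 1 : ℝ)
      = q * (if i ∈ S then (1 + (l : ℝ) / q * (w - 1)) else 1) := by
    intro i
    by_cases hi : i ∈ S
    · simp only [hi, if_true]
      have : ∀ a : Fin q, (if a ∈ Λ i then w else 1 : ℝ) = 1 + (if a ∈ Λ i then (w - 1) else 0) := by
        intro a
        by_cases ha : a ∈ Λ i
        · simp [ha]
        · simp [ha]
      rw [sum_congr rfl (fun a _ => this a), sum_add_distrib, sum_ite_mem, univ_inter]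
      simp only [sum_const, card_univ, Fintype.card_fin, nsmul_eq_mul, mul_one, hΛ i hi]
      field_simp
    · simp [hi]
  rw [prod_congr rfl (fun i _ => h3 i), prod_mul_distrib, prod_const, card_univ]
  rw [prod_ite_mem, univ_inter, prod_const]

/-- Markov's inequality in counting form. -/
theorem markov1 (P : (I → Fin q) → Prop) [DecidablePred P] (g : (I → Fin q) → ℝ)
    (hg : ∀ f, 0 ≤ g f) (c : ℝ) (hP : ∀ f, P f → c ≤ g f) :
    ((univ.filter P).card : ℝ) * c ≤ ∑ f, g f := by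
  have h1 : ((univ.filter P).card : ℝ) * c = ∑ f ∈ univ.filter P, c := by
    rw [sum_const, nsmul_eq_mul]
  rw [h1]
  calc ∑ f ∈ univ.filter P, c ≤ ∑ f ∈ univ.filter P, g f :=
        sum_le_sum fun f hf => hP f (mem_filter.1 hf).2
    _ ≤ ∑ f, g f := sum_le_sum_of_subset_of_nonneg (subset_univ _) (fun f _ _ => hg f)

theorem exp_neg_le_quad {x : ℝ} (hx : 0 ≤ x) : Real.exp (-x) ≤ 1 - x + x ^ 2 / 2 := by
  have h := Real.quadratic_le_exp_of_nonneg hx
  have hpos : 0 < 1 + x + x ^ 2 / 2 := by positivity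
  rw [Real.exp_neg]
  have h1 : (Real.exp x)⁻¹ ≤ (1 + x + x ^ 2 / 2)⁻¹ := by
    apply inv_anti₀ hpos h
  refine h1.trans ?_
  rw [inv_le_iff_one_le_mul₀ hpos]
  nlinarith [sq_nonneg (x ^ 2)]

/-- Lower tail. -/
theorem hits_low (hq : 0 < q) (S : Finset I) (Λ : I → Finset (Fin q)) (l : ℕ)
    (hΛ : ∀ i ∈ S, (Λ i).card = l) (ε : ℝ) (hε : 0 ≤ ε) :
    ((univ.filter fun f : I → Fin q =>
        (hits S Λ f : ℝ) ≤ (1 - ε) * ((l : ℝ) / q * S.card)).card : ℝ)
      ≤ Real.exp (-(ε ^ 2 * ((l : ℝ) / q * S.card) / 2)) * (q : ℝ) ^ (Fintype.card I) := by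
  classical
  have hq' : (0 : ℝ) < q := by exact_mod_cast hq
  set θ : ℝ := (l : ℝ) / q with hθ
  have hθ0 : 0 ≤ θ := by positivity
  set s : ℝ := (S.card : ℝ) with hs
  have hs0 : 0 ≤ s := by positivity
  set w : ℝ := Real.exp (-ε) with hw
  have hw0 : 0 < w := Real.exp_pos _
  have hmgf := mgf1 hq S Λ l hΛ w
  have hM := markov1 (fun f : I → Fin q => (hits S Λ f : ℝ) ≤ (1 - ε) * (θ * s))
    (fun f => w ^ (hits S Λ f)) (fun f => by positivity)
    (Real.exp (-ε * ((1 - ε) * (θ * s)))) (by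
      intro f hf
      have : w ^ (hits S Λ f) = Real.exp (-ε * (hits S Λ f : ℝ)) := by
        rw [hw, ← Real.exp_nat_mul]; ring_nf
      rw [this]
      apply Real.exp_le_exp.2
      nlinarith)
  rw [hmgf] at hM
  have h1 : (1 + θ * (w - 1)) ^ S.card ≤ Real.exp (s * (θ * (w - 1))) := by
    have hnn : 0 ≤ 1 + θ * (w - 1) ∨ ¬ 0 ≤ 1 + θ * (w - 1) := em _
    rcases S.eq_empty_or_nonempty with rfl | hne
    · simp [hs]
    · have hθ1 : θ ≤ 1 := by
        obtain ⟨i, hi⟩ := hne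
        rw [hθ, div_le_one hq', ← hΛ i hi]
        have := card_le_univ (Λ i)
        simp at this
        exact_mod_cast this
      have hw1 : w ≤ 1 := by
        rw [hw, Real.exp_le_one_iff]; linarith
      have h0 : 0 ≤ 1 + θ * (w - 1) := by nlinarith
      calc (1 + θ * (w - 1)) ^ S.card ≤ (Real.exp (θ * (w - 1))) ^ S.card := by
            apply pow_le_pow_left₀ h0
            have := Real.add_one_le_exp (θ * (w - 1))
            linarith
        _ = Real.exp (s * (θ * (w - 1))) := by rw [← Real.exp_nat_mul]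
  set Q : ℝ := (q : ℝ) ^ (Fintype.card I) with hQ
  have hQ0 : 0 < Q := by positivity
  have hwle : w ≤ 1 - ε + ε ^ 2 / 2 := exp_neg_le_quad hε
  have h2 : (((univ.filter fun f : I → Fin q =>
        (hits S Λ f : ℝ) ≤ (1 - ε) * (θ * s)).card : ℝ)) * Real.exp (-ε * ((1 - ε) * (θ * s)))
      ≤ (Real.exp (-(ε ^ 2 * (θ * s) / 2)) * Q) * Real.exp (-ε * ((1 - ε) * (θ * s))) := by
    refine hM.trans ?_
    calc Q * (1 + θ * (w - 1)) ^ S.card ≤ Q * Real.exp (s * (θ * (w - 1))) :=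
          mul_le_mul_of_nonneg_left h1 hQ0.le
      _ ≤ Q * (Real.exp (-(ε ^ 2 * (θ * s) / 2)) * Real.exp (-ε * ((1 - ε) * (θ * s)))) := by
          apply mul_le_mul_of_nonneg_left _ hQ0.le
          rw [← Real.exp_add]
          apply Real.exp_le_exp.2
          have hsθ : 0 ≤ s * θ := mul_nonneg hs0 hθ0
          nlinarith [mul_le_mul_of_nonneg_left hwle hsθ]
      _ = _ := by ring
  exact le_of_mul_le_mul_right h2 (Real.exp_pos _)

/-- Upper tail. -/
theorem hits_up (hq : 0 < q) (S : Finset I) (Λ : I → Finset (Fin q)) (l : ℕ)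
    (hΛ : ∀ i ∈ S, (Λ i).card = l) (ε : ℝ) (hε : 0 ≤ ε) (hε1 : ε ≤ 1) :
    ((univ.filter fun f : I → Fin q =>
        (1 + ε) * ((l : ℝ) / q * S.card) ≤ (hits S Λ f : ℝ)).card : ℝ)
      ≤ Real.exp (-(ε ^ 2 * ((l : ℝ) / q * S.card) / 3)) * (q : ℝ) ^ (Fintype.card I) := by
  classical
  have hq' : (0 : ℝ) < q := by exact_mod_cast hq
  set θ : ℝ := (l : ℝ) / q with hθ
  have hθ0 : 0 ≤ θ := by positivity
  set s : ℝ := (S.card : ℝ) with hs
  have hs0 : 0 ≤ s := by positivity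
  set L : ℝ := Real.log (1 + ε) with hL
  have hL0 : 0 ≤ L := Real.log_nonneg (by linarith)
  have hLlow : 2 * ε / (ε + 2) ≤ L := Real.le_log_one_add_of_nonneg hε
  have hmgf := mgf1 hq S Λ l hΛ (1 + ε)
  have hM := markov1 (fun f : I → Fin q => (1 + ε) * (θ * s) ≤ (hits S Λ f : ℝ))
    (fun f => (1 + ε) ^ (hits S Λ f)) (fun f => by positivity)
    (Real.exp (L * ((1 + ε) * (θ * s)))) (by
      intro f hf
      have : (1 + ε) ^ (hits S Λ f) = Real.exp (L * (hits S Λ f : ℝ)) := by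
        rw [mul_comm, Real.exp_nat_mul, hL, Real.exp_log (by linarith)]
      rw [this]
      apply Real.exp_le_exp.2
      exact mul_le_mul_of_nonneg_left hf hL0)
  rw [hmgf] at hM
  have h1 : (1 + θ * (1 + ε - 1)) ^ S.card ≤ Real.exp (s * (θ * ε)) := by
    have h0 : 0 ≤ 1 + θ * (1 + ε - 1) := by
      have : 0 ≤ θ * (1 + ε - 1) := mul_nonneg hθ0 (by linarith)
      linarith
    calc (1 + θ * (1 + ε - 1)) ^ S.card ≤ (Real.exp (θ * ε)) ^ S.card := by
          apply pow_le_pow_left₀ h0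
          have := Real.add_one_le_exp (θ * ε)
          nlinarith
      _ = Real.exp (s * (θ * ε)) := by rw [← Real.exp_nat_mul]
  set Q : ℝ := (q : ℝ) ^ (Fintype.card I) with hQ
  have hQ0 : 0 < Q := by positivity
  have key : ε - (1 + ε) * L ≤ -(ε ^ 2 / 3) := by
    have hpos : (0 : ℝ) < ε + 2 := by linarith
    have h3 : (1 + ε) * (2 * ε / (ε + 2)) ≤ (1 + ε) * L :=
      mul_le_mul_of_nonneg_left hLlow (by linarith)
    have h4 : ε - (1 + ε) * (2 * ε / (ε + 2)) = -(ε ^ 2 / (ε + 2)) := by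
      field_simp
      ring
    have h5 : ε ^ 2 / 3 ≤ ε ^ 2 / (ε + 2) := by
      apply div_le_div_of_nonneg_left (sq_nonneg ε) hpos
      linarith
    linarith
  have h2 : (((univ.filter fun f : I → Fin q =>
        (1 + ε) * (θ * s) ≤ (hits S Λ f : ℝ)).card : ℝ)) * Real.exp (L * ((1 + ε) * (θ * s)))
      ≤ (Real.exp (-(ε ^ 2 * (θ * s) / 3)) * Q) * Real.exp (L * ((1 + ε) * (θ * s))) := by
    refine hM.trans ?_
    calc Q * (1 + θ * (1 + ε - 1)) ^ S.card ≤ Q * Real.exp (s * (θ * ε)) :=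
          mul_le_mul_of_nonneg_left h1 hQ0.le
      _ ≤ Q * (Real.exp (-(ε ^ 2 * (θ * s) / 3)) * Real.exp (L * ((1 + ε) * (θ * s)))) := by
          apply mul_le_mul_of_nonneg_left _ hQ0.le
          rw [← Real.exp_add]
          apply Real.exp_le_exp.2
          have hsθ : 0 ≤ s * θ := mul_nonneg hs0 hθ0
          nlinarith [mul_le_mul_of_nonneg_left key hsθ]
      _ = _ := by ring
  exact le_of_mul_le_mul_right h2 (Real.exp_pos _)

end Pool.Agent.H76.SCD
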